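import Pool.Agent.Q307.SPB.Main

/-!
# Pseudocompact group topologies which are not selectively pseudocompact on Boolean groups

Let `G` be an infinite Boolean group with a pseudocompact group topology. Then `G` has at least
`𝔠` elements, so that `G` is isomorphic to `G × H` for every Boolean group `H` of size at most `𝔠`.
There is such an `H` with a group topology which is sequentially pseudocompact and not selectively
pseudocompact: a subgroup of `2 ^ I` which projects onto all countable subproducts, where for every
independent sequence and every point of `H` there is a coordinate which separates the point from a
final part of the sequence. The product of a sequentially pseudocompact and a pseudocompact group is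
pseudocompact, and `H` is an open image of `G × H`.
-/

set_option autoImplicit false

universe u

namespace Pool.Agent.Results.MP_8fa6fd_gt.NotSelective

open Pool.Agent.Q307.SPB

/-- Every infinite Boolean group with a Hausdorff pseudocompact group topology has a Hausdorff
pseudocompact group topology which is not selectively pseudocompact. -/
theorem result (G : Type u) [AddCommGroup G] [Infinite G] (hB : ∀ x : G, x + x = 0)
    (hG : ∃ _ : TopologicalSpace G, IsTopologicalAddGroup G ∧ T2Space G ∧ Pseudocompact G) :
    ∃ _ : TopologicalSpace G, IsTopologicalAddGroup G ∧ T2Space G ∧ Pseudocompact G ∧
      ¬ SelectivelyPseudocompact G :=
  main hB hG

end Pool.Agent.Results.MP_8fa6fd_gt.NotSelective
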